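import Pool.Agent.N728.QL.Def

set_option autoImplicit false

/-! # Project QL: subtask B4 (slowly varying weights). -/

namespace Pool.Agent.N49.QL

open Finset Pool.Agent.N728.QL

noncomputable section

/-! ### Abel summation -/

lemma abel_id (G a : ℕ → ℝ) (N : ℕ) :
    ∑ v ∈ Icc 1 N, G v * a v =
      G N * (∑ v ∈ Icc 1 N, a v) - ∑ v ∈ range N, (G (v + 1) - G v) * ∑ w ∈ Icc 1 v, a w := by
  induction N with
  | zero => simp
  | succ n ih =>
    rw [Finset.sum_Icc_succ_top (by omega), ih, Finset.sum_Icc_succ_top (by omega) a, Finset.sum_range_succ]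
    ring

lemma abel (G a : ℕ → ℝ) (N : ℕ) (δ E : ℝ) (hδ : 0 ≤ δ) (hG : ∀ v, |G v| ≤ 1)
    (hG' : ∀ v, |G (v + 1) - G v| ≤ δ) (ha : ∀ V, V ≤ N → |∑ v ∈ Icc 1 V, a v| ≤ E) :
    |∑ v ∈ Icc 1 N, G v * a v| ≤ (1 + N * δ) * E := by
  rw [abel_id]
  have h1 : |G N * (∑ v ∈ Icc 1 N, a v)| ≤ 1 * E := by
    rw [abs_mul]
    exact mul_le_mul (hG N) (ha N le_rfl) (abs_nonneg _) zero_le_one
  have h2 : |∑ v ∈ range N, (G (v + 1) - G v) * ∑ w ∈ Icc 1 v, a w| ≤ N * (δ * E) := by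
    calc |∑ v ∈ range N, (G (v + 1) - G v) * ∑ w ∈ Icc 1 v, a w|
        ≤ ∑ v ∈ range N, |(G (v + 1) - G v) * ∑ w ∈ Icc 1 v, a w| := Finset.abs_sum_le_sum_abs _ _
      _ ≤ ∑ v ∈ range N, δ * E := by
          apply Finset.sum_le_sum
          intro v hv
          rw [abs_mul]
          exact mul_le_mul (hG' v) (ha v (Finset.mem_range.mp hv).le) (abs_nonneg _) hδ
      _ = N * (δ * E) := by rw [Finset.sum_const, Finset.card_range, nsmul_eq_mul]
  calc |G N * (∑ v ∈ Icc 1 N, a v) - ∑ v ∈ range N, (G (v + 1) - G v) * ∑ w ∈ Icc 1 v, a w|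
      ≤ |G N * (∑ v ∈ Icc 1 N, a v)| + |∑ v ∈ range N, (G (v + 1) - G v) * ∑ w ∈ Icc 1 v, a w| :=
        abs_sub _ _
    _ ≤ 1 * E + N * (δ * E) := add_le_add h1 h2
    _ = (1 + N * δ) * E := by ring

/-! ### The main term -/

/-- `∏_{p ∣ u, p > z} (1 - 1/p)^(-1) - 1` -/
def hh (z u : ℕ) : ℝ := (∏ p ∈ u.primeFactors.filter (fun p => z < p), (1 - 1 / (p : ℝ))⁻¹) - 1

lemma fac_pos {p : ℕ} (hp : p.Prime) : (0 : ℝ) < 1 - 1 / (p : ℝ) := by
  have h2 : (2 : ℝ) ≤ p := by exact_mod_cast hp.two_le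
  have : 1 / (p : ℝ) ≤ 1 / 2 := one_div_le_one_div_of_le (by norm_num) h2
  linarith

lemma VW_pos (w y : ℕ) : 0 < VW w y := by
  unfold VW
  apply Finset.prod_pos
  intro p hp
  exact fac_pos (Finset.mem_filter.mp hp).2

lemma hh_nonneg (z u : ℕ) : 0 ≤ hh z u := by
  unfold hh
  rw [sub_nonneg]
  apply Finset.prod_induction _ (fun x : ℝ => 1 ≤ x)
  · intro a b ha hb; exact one_le_mul_of_one_le_of_one_le ha hb
  · exact le_rfl
  · intro p hp
    have hpp := Nat.prime_of_mem_primeFactors (Finset.mem_filter.mp hp).1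
    have h1 := fac_pos hpp
    rw [one_le_inv₀ h1]
    have : (0 : ℝ) < p := by exact_mod_cast hpp.pos
    have : 0 < 1 / (p : ℝ) := by positivity
    linarith

lemma prime_dvd_PP {z p : ℕ} (hp : p.Prime) (hz : p ≤ z) : p ∣ PP 0 z := by
  unfold PP
  apply Finset.dvd_prod_of_mem
  rw [Finset.mem_filter, Finset.mem_Ioc]
  exact ⟨⟨hp.pos, hz⟩, hp⟩

lemma main_term {q z u : ℕ} (hq : 1 ≤ q) (hu : 1 ≤ u) (hPP : PP 0 z ∣ q)
    (hqz : ∀ p : ℕ, p.Prime → p ∣ q → p ≤ z) :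
    ((u * q : ℕ) : ℝ) / (Nat.totient (u * q) : ℝ) = (VW 0 z)⁻¹ * (1 + hh z u) := by
  have hne : u * q ≠ 0 := by positivity
  have htot : (Nat.totient (u * q) : ℝ) = (u * q : ℕ) * ∏ p ∈ (u * q).primeFactors, (1 - 1 / (p : ℝ)) := by
    have h := Nat.totient_eq_mul_prod_factors (u * q)
    have h' : ((Nat.totient (u * q) : ℚ) : ℝ) =
        (((u * q : ℕ) : ℚ) * ∏ p ∈ (u * q).primeFactors, (1 - (p : ℚ)⁻¹) : ℚ) := by rw [h]
    push_cast at h' ⊢
    rw [h']
    simp only [one_div]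
  have hsplit : (u * q).primeFactors =
      ((Ioc 0 z).filter Nat.Prime) ∪ (u.primeFactors.filter (fun p => z < p)) := by
    ext p
    rw [Finset.mem_union, Finset.mem_filter, Finset.mem_filter, Finset.mem_Ioc, Nat.mem_primeFactors,
      Nat.mem_primeFactors]
    constructor
    · rintro ⟨hp, hd, -⟩
      by_cases hpz : p ≤ z
      · exact Or.inl ⟨⟨hp.pos, hpz⟩, hp⟩
      · right
        refine ⟨⟨hp, ?_, by omega⟩, by omega⟩
        rcases (hp.dvd_mul).mp hd with h | h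
        · exact h
        · exact absurd (hqz p hp h) hpz
    · rintro (⟨⟨-, hpz⟩, hp⟩ | ⟨⟨hp, hd, -⟩, -⟩)
      · exact ⟨hp, Dvd.dvd.mul_left ((prime_dvd_PP hp hpz).trans hPP) u, hne⟩
      · exact ⟨hp, Dvd.dvd.mul_right hd q, hne⟩
  have hdisj : Disjoint ((Ioc 0 z).filter Nat.Prime) (u.primeFactors.filter (fun p => z < p)) := by
    rw [Finset.disjoint_left]
    intro p hp hp'
    rw [Finset.mem_filter, Finset.mem_Ioc] at hp
    rw [Finset.mem_filter] at hp'
    omega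
  have hprod : ∏ p ∈ (u * q).primeFactors, (1 - 1 / (p : ℝ)) =
      VW 0 z * ∏ p ∈ u.primeFactors.filter (fun p => z < p), (1 - 1 / (p : ℝ)) := by
    rw [hsplit, Finset.prod_union hdisj]
    rfl
  have hV := VW_pos 0 z
  have hP : 0 < ∏ p ∈ u.primeFactors.filter (fun p => z < p), (1 - 1 / (p : ℝ)) := by
    apply Finset.prod_pos
    intro p hp
    exact fac_pos (Nat.prime_of_mem_primeFactors (Finset.mem_filter.mp hp).1)
  have hn : (0 : ℝ) < (u * q : ℕ) := by exact_mod_cast Nat.pos_of_ne_zero hne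
  rw [htot, hprod]
  have hh1 : 1 + hh z u = (∏ p ∈ u.primeFactors.filter (fun p => z < p), (1 - 1 / (p : ℝ)))⁻¹ := by
    unfold hh
    rw [Finset.prod_inv_distrib]
    ring
  rw [hh1]
  field_simp

/-! ### The sum over the primes -/

/-- the sum over the primes in a class -/
def th (H m r : ℕ) : ℝ := ∑ p ∈ (Icc 1 H).filter (fun p => p.Prime ∧ p ≡ r [MOD m]), Real.log p

/-- the sum over all primes up to `z` (a constant) -/
def Zc (z : ℕ) : ℝ := ∑ p ∈ Icc 1 z, Real.log p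

lemma lp_sum {c : ℤ} {z q u v0 V r : ℕ} (hcz : c.natAbs ≤ z) (hu : 1 ≤ u)
    (hr : (r : ℤ) ≡ (u : ℤ) * v0 + c [ZMOD ((u * q : ℕ) : ℤ)]) :
    |∑ v ∈ (Icc 1 V).filter (fun v => v ≡ v0 [MOD q]), lp ((u : ℤ) * v + c) -
      th ((u : ℤ) * V + c).toNat (u * q) r| ≤ Zc z := by
  classical
  have h1 : ∑ v ∈ (Icc 1 V).filter (fun v => v ≡ v0 [MOD q]), lp ((u : ℤ) * v + c) =
      ∑ p ∈ ((Icc 1 ((u : ℤ) * V + c).toNat).filter (fun p => p.Prime ∧ p ≡ r [MOD (u * q)])).filter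
        (fun p : ℕ => c < (p : ℤ)), Real.log p := by
    have h2 : ∑ v ∈ (Icc 1 V).filter (fun v => v ≡ v0 [MOD q]), lp ((u : ℤ) * v + c) =
        ∑ v ∈ ((Icc 1 V).filter (fun v => v ≡ v0 [MOD q])).filter
          (fun v : ℕ => ((u : ℤ) * v + c).toNat.Prime), Real.log (((u : ℤ) * v + c : ℤ) : ℝ) := by
      rw [Finset.sum_filter (s := (Icc 1 V).filter (fun v => v ≡ v0 [MOD q]))]
      rfl
    rw [h2]
    have huz : (0 : ℤ) < u := by exact_mod_cast hu
    refine Finset.sum_bij (fun (v : ℕ) _ => ((u : ℤ) * v + c).toNat) ?_ ?_ ?_ ?_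
    · intro v hv
      rw [Finset.mem_filter, Finset.mem_filter, Finset.mem_Icc] at hv
      obtain ⟨⟨⟨hv1, hvV⟩, hvq⟩, hvp⟩ := hv
      have hpos : 0 < (u : ℤ) * v + c := by
        by_contra hcon
        rw [Int.toNat_of_nonpos (by omega)] at hvp
        exact Nat.not_prime_zero hvp
      have hcast : ((((u : ℤ) * v + c).toNat : ℕ) : ℤ) = (u : ℤ) * v + c := Int.toNat_of_nonneg hpos.le
      rw [Finset.mem_filter, Finset.mem_filter, Finset.mem_Icc]
      refine ⟨⟨⟨by omega, ?_⟩, hvp, ?_⟩, ?_⟩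
      · apply Int.toNat_le_toNat
        have : (v : ℤ) ≤ V := by exact_mod_cast hvV
        have := mul_le_mul_of_nonneg_left this huz.le
        omega
      · rw [← Int.natCast_modEq_iff, hcast]
        refine Int.ModEq.trans ?_ hr.symm
        apply Int.ModEq.add_right
        push_cast
        apply Int.ModEq.mul_left'
        exact Int.natCast_modEq_iff.mpr hvq
      · rw [hcast]
        have : 0 < (u : ℤ) * v := mul_pos huz (by exact_mod_cast hv1)
        omega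
    · intro v hv v' hv' heq
      rw [Finset.mem_filter, Finset.mem_filter, Finset.mem_Icc] at hv hv'
      have hpos : ∀ v : ℕ, ((u : ℤ) * v + c).toNat.Prime → 0 < (u : ℤ) * v + c := by
        intro v hvp
        by_contra hcon
        rw [Int.toNat_of_nonpos (by omega)] at hvp
        exact Nat.not_prime_zero hvp
      have e1 : ((((u : ℤ) * v + c).toNat : ℕ) : ℤ) = (u : ℤ) * v + c :=
        Int.toNat_of_nonneg (hpos v hv.2).le
      have e2 : ((((u : ℤ) * v' + c).toNat : ℕ) : ℤ) = (u : ℤ) * v' + c :=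
        Int.toNat_of_nonneg (hpos v' hv'.2).le
      have e3 : (u : ℤ) * v + c = (u : ℤ) * v' + c := by
        rw [← e1, ← e2]; exact_mod_cast heq
      have e4 : (u : ℤ) * v = (u : ℤ) * v' := by omega
      have e5 := mul_left_cancel₀ huz.ne' e4
      exact_mod_cast e5
    · intro p hp
      rw [Finset.mem_filter, Finset.mem_filter, Finset.mem_Icc] at hp
      obtain ⟨⟨⟨hp1, hpH⟩, hpp, hpr⟩, hcp⟩ := hp
      have h3 : (p : ℤ) ≡ (u : ℤ) * v0 + c [ZMOD ((u * q : ℕ) : ℤ)] :=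
        (Int.natCast_modEq_iff.mpr hpr).trans hr
      obtain ⟨k, hk⟩ := h3.symm.dvd
      push_cast at hk
      -- p - (u v0 + c) = u q k
      have h4 : (p : ℤ) = (u : ℤ) * (v0 + q * k) + c := by linarith
      have h5 : 0 < (v0 : ℤ) + q * k := by
        by_contra hcon
        have : (u : ℤ) * (v0 + q * k) ≤ 0 := mul_nonpos_of_nonneg_of_nonpos huz.le (by omega)
        omega
      have h6 : ((((v0 : ℤ) + q * k).toNat : ℕ) : ℤ) = v0 + q * k := Int.toNat_of_nonneg h5.le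
      refine ⟨((v0 : ℤ) + q * k).toNat, ?_, ?_⟩
      · rw [Finset.mem_filter, Finset.mem_filter, Finset.mem_Icc, h6, ← h4]
        refine ⟨⟨⟨by omega, ?_⟩, ?_⟩, ?_⟩
        · have h7 : (p : ℤ) ≤ (u : ℤ) * V + c := by
            have : 0 < ((u : ℤ) * V + c).toNat := by omega
            omega
          have h8 : (u : ℤ) * (v0 + q * k) ≤ u * V := by omega
          have h9 := le_of_mul_le_mul_left h8 huz
          omega
        · rw [← Int.natCast_modEq_iff, h6]
          exact (Int.modEq_iff_dvd.mpr ⟨-k, by ring⟩)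
        · simpa using hpp
      · show ((u : ℤ) * ((((v0 : ℤ) + q * k).toNat : ℕ) : ℤ) + c).toNat = p
        rw [h6, ← h4]
        simp
    · intro v hv
      rw [Finset.mem_filter, Finset.mem_filter, Finset.mem_Icc] at hv
      have hpos : 0 < (u : ℤ) * v + c := by
        by_contra hcon
        have hvp := hv.2
        rw [Int.toNat_of_nonpos (by omega)] at hvp
        exact Nat.not_prime_zero hvp
      have e1 : ((((u : ℤ) * v + c).toNat : ℕ) : ℤ) = (u : ℤ) * v + c :=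
        Int.toNat_of_nonneg hpos.le
      have e2 : ((((u : ℤ) * v + c).toNat : ℕ) : ℝ) = (((u : ℤ) * v + c : ℤ) : ℝ) := by
        exact_mod_cast congrArg (fun x : ℤ => (x : ℝ)) e1
      rw [e2]
  rw [h1]
  unfold th
  set S := (Icc 1 ((u : ℤ) * V + c).toNat).filter (fun p => p.Prime ∧ p ≡ r [MOD (u * q)]) with hS
  have h2 : ∑ p ∈ S, Real.log p = ∑ p ∈ S.filter (fun p : ℕ => c < (p : ℤ)), Real.log p +
      ∑ p ∈ S.filter (fun p : ℕ => ¬ c < (p : ℤ)), Real.log p := (Finset.sum_filter_add_sum_filter_not _ _ _).symm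
  have h3 : 0 ≤ ∑ p ∈ S.filter (fun p : ℕ => ¬ c < (p : ℤ)), Real.log p :=
    Finset.sum_nonneg (fun p _ => Real.log_natCast_nonneg p)
  have h4 : ∑ p ∈ S.filter (fun p : ℕ => ¬ c < (p : ℤ)), Real.log p ≤ Zc z := by
    unfold Zc
    apply Finset.sum_le_sum_of_subset_of_nonneg
    · intro p hp
      rw [Finset.mem_filter, hS, Finset.mem_filter, Finset.mem_Icc] at hp
      rw [Finset.mem_Icc]
      omega
    · intro p _ _
      exact Real.log_natCast_nonneg p
  rw [h2, sub_add_cancel_left, abs_neg, abs_of_nonneg h3]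
  exact h4

/-! ### Counting a class -/

lemma count_class {q : ℕ} (hq : 1 ≤ q) (V v0 : ℕ) :
    |(((Icc 1 V).filter (fun v => v ≡ v0 [MOD q])).card : ℝ) - V / q| ≤ 1 := by
  have h := Nat.Ioc_filter_modEq_card 0 V (r := q) (by omega) v0
  have hI : Icc 1 V = Ioc 0 V := by ext; simp [Finset.mem_Icc, Finset.mem_Ioc]; omega
  rw [hI]
  have hq0 : (0 : ℚ) < q := by exact_mod_cast hq
  have h1 : (((Ioc 0 V).filter (fun v => v ≡ v0 [MOD q])).card : ℤ) =
      ⌊((V : ℚ) - v0) / q⌋ - ⌊((0 : ℕ) - v0 : ℚ) / q⌋ := by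
    rw [h, max_eq_left]
    rw [sub_nonneg]
    apply Int.floor_le_floor
    apply div_le_div_of_nonneg_right _ hq0.le
    have : (0 : ℚ) ≤ V := by positivity
    push_cast
    linarith
  have h2 := Int.floor_le (((V : ℚ) - v0) / q)
  have h3 := Int.lt_floor_add_one (((V : ℚ) - v0) / q)
  have h4 := Int.floor_le (((0 : ℕ) - v0 : ℚ) / q)
  have h5 := Int.lt_floor_add_one (((0 : ℕ) - v0 : ℚ) / q)
  have h6 : ((V : ℚ) - v0) / q - ((0 : ℕ) - v0 : ℚ) / q = V / q := by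
    push_cast
    ring
  have h7 : |(((Ioc 0 V).filter (fun v => v ≡ v0 [MOD q])).card : ℚ) - V / q| ≤ 1 := by
    have h8 : (((Ioc 0 V).filter (fun v => v ≡ v0 [MOD q])).card : ℚ) =
        (⌊((V : ℚ) - v0) / q⌋ : ℚ) - (⌊((0 : ℕ) - v0 : ℚ) / q⌋ : ℚ) := by
      exact_mod_cast h1
    rw [h8, abs_le]
    constructor <;> linarith
  have h9 : ((|(((Ioc 0 V).filter (fun v => v ≡ v0 [MOD q])).card : ℚ) - V / q| : ℚ) : ℝ) ≤ ((1 : ℚ) : ℝ) := by
    exact_mod_cast h7
  push_cast at h9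
  exact h9

/-! ### One value of `u` -/

lemma Rg_class {c : ℤ} {z q u v u0 v0 : ℕ} (hPP : PP 0 z ∣ q) (hu : u ≡ u0 [MOD q]) (hv : v ≡ v0 [MOD q]) :
    Rg 0 z ((u : ℤ) * v + c) ↔ Rg 0 z ((u0 : ℤ) * v0 + c) := by
  have key : ∀ p : ℕ, p.Prime → p ≤ z → ((p : ℤ) ∣ (u : ℤ) * v + c ↔ (p : ℤ) ∣ (u0 : ℤ) * v0 + c) := by
    intro p hp hpz
    have hpq : p ∣ q := (prime_dvd_PP hp hpz).trans hPP
    apply dvd_iff_dvd_of_dvd_sub
    have h1 : (u : ℤ) ≡ u0 [ZMOD p] := Int.natCast_modEq_iff.mpr (hu.of_dvd hpq)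
    have h2 : (v : ℤ) ≡ v0 [ZMOD p] := Int.natCast_modEq_iff.mpr (hv.of_dvd hpq)
    have h3 : (u : ℤ) * v + c ≡ (u0 : ℤ) * v0 + c [ZMOD p] := (h1.mul h2).add_right c
    exact h3.symm.dvd
  unfold Rg
  constructor
  · intro h p hp h0 hpz hd
    exact h p hp h0 hpz ((key p hp hpz).mpr hd)
  · intro h p hp h0 hpz hd
    exact h p hp h0 hpz ((key p hp hpz).mp hd)

lemma Zc_nonneg (z : ℕ) : 0 ≤ Zc z := Finset.sum_nonneg (fun p _ => Real.log_natCast_nonneg p)

lemma per_u {c : ℤ} {z q u u0 v0 V r : ℕ} (hcz : c.natAbs ≤ z) (hu : 1 ≤ u) (hq : 1 ≤ q) (hPP : PP 0 z ∣ q)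
    (hqz : ∀ p : ℕ, p.Prime → p ∣ q → p ≤ z) (huu : u ≡ u0 [MOD q]) (hR : Rg 0 z ((u0 : ℤ) * v0 + c))
    (hr : (r : ℤ) ≡ (u : ℤ) * v0 + c [ZMOD ((u * q : ℕ) : ℤ)]) :
    |∑ v ∈ Icc 1 V, ((if v ≡ v0 [MOD q] then EE z ((u : ℤ) * v + c) else 0) - (VW 0 z)⁻¹ * hh z u / q)| ≤
      |th ((u : ℤ) * V + c).toNat (u * q) r - (((u : ℤ) * V + c).toNat : ℝ) / Nat.totient (u * q)| +
        (Zc z + z + (VW 0 z)⁻¹) := by
  have hW : 0 < (VW 0 z)⁻¹ := inv_pos.mpr (VW_pos 0 z)
  set W := (VW 0 z)⁻¹ with hWdef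
  have hq0 : (0 : ℝ) < q := by exact_mod_cast hq
  have hu0 : (0 : ℝ) < u := by exact_mod_cast hu
  have h1 : ∑ v ∈ Icc 1 V, ((if v ≡ v0 [MOD q] then EE z ((u : ℤ) * v + c) else 0) - W * hh z u / q) =
      ∑ v ∈ (Icc 1 V).filter (fun v => v ≡ v0 [MOD q]), lp ((u : ℤ) * v + c) -
      W * (((Icc 1 V).filter (fun v => v ≡ v0 [MOD q])).card : ℝ) - V * (W * hh z u / q) := by
    rw [Finset.sum_sub_distrib, ← Finset.sum_filter]
    have h2 : ∑ v ∈ (Icc 1 V).filter (fun v => v ≡ v0 [MOD q]), EE z ((u : ℤ) * v + c) =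
        ∑ v ∈ (Icc 1 V).filter (fun v => v ≡ v0 [MOD q]), (lp ((u : ℤ) * v + c) - W) := by
      apply Finset.sum_congr rfl
      intro v hv
      have hv' := (Finset.mem_filter.mp hv).2
      unfold EE lz
      rw [if_pos ((Rg_class hPP huu hv').mpr hR)]
    rw [h2, Finset.sum_sub_distrib]
    simp only [Finset.sum_const, nsmul_eq_mul, Nat.card_Icc, Nat.add_sub_cancel]
    ring
  rw [h1]
  set H := ((u : ℤ) * V + c).toNat with hH
  have e1 := lp_sum (V := V) hcz hu hr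
  rw [← hH] at e1
  set A := ∑ v ∈ (Icc 1 V).filter (fun v => v ≡ v0 [MOD q]), lp ((u : ℤ) * v + c) with hA
  have e2 := count_class hq V v0
  set N := (((Icc 1 V).filter (fun v => v ≡ v0 [MOD q])).card : ℝ) with hN
  -- the main term
  have e3 := main_term hq hu hPP hqz
  have hφ : (1 : ℝ) ≤ (Nat.totient (u * q) : ℝ) := by
    exact_mod_cast Nat.totient_pos.mpr (Nat.mul_pos hu hq)
  have hHV : |(H : ℝ) - u * V| ≤ z := by
    have h3 : |(H : ℤ) - u * V| ≤ z := by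
      have hnn : (0 : ℤ) ≤ (u : ℤ) * V := by positivity
      rw [abs_le]
      constructor <;> omega
    have h4 : ((|(H : ℤ) - u * V| : ℤ) : ℝ) ≤ ((z : ℤ) : ℝ) := by exact_mod_cast h3
    push_cast at h4
    exact h4
  have e4 : |(H : ℝ) / Nat.totient (u * q) - (u * V : ℝ) / Nat.totient (u * q)| ≤ z := by
    rw [← sub_div, abs_div, abs_of_pos (lt_of_lt_of_le one_pos hφ)]
    calc |(H : ℝ) - u * V| / Nat.totient (u * q) ≤ |(H : ℝ) - u * V| := div_le_self (abs_nonneg _) hφ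
      _ ≤ z := hHV
  have e5 : (u * V : ℝ) / Nat.totient (u * q) = V / q * (W * (1 + hh z u)) := by
    rw [← e3]
    push_cast
    field_simp
  have e6 : |W * (V / q - N)| ≤ W := by
    rw [abs_mul, abs_of_pos hW, abs_sub_comm]
    calc W * |N - V / q| ≤ W * 1 := mul_le_mul_of_nonneg_left e2 hW.le
      _ = W := mul_one W
  have e7 : A - W * N - V * (W * hh z u / q) =
      (A - th H (u * q) r) + (th H (u * q) r - (H : ℝ) / Nat.totient (u * q)) +
      ((H : ℝ) / Nat.totient (u * q) - (u * V : ℝ) / Nat.totient (u * q)) + W * (V / q - N) := by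
    rw [e5]
    field_simp
    ring
  rw [e7]
  calc |(A - th H (u * q) r) + (th H (u * q) r - (H : ℝ) / Nat.totient (u * q)) +
      ((H : ℝ) / Nat.totient (u * q) - (u * V : ℝ) / Nat.totient (u * q)) + W * (V / q - N)|
      ≤ |A - th H (u * q) r| + |th H (u * q) r - (H : ℝ) / Nat.totient (u * q)| +
        |(H : ℝ) / Nat.totient (u * q) - (u * V : ℝ) / Nat.totient (u * q)| + |W * (V / q - N)| := by
        refine (abs_add_le _ _).trans (add_le_add ?_ le_rfl)
        refine (abs_add_le _ _).trans (add_le_add ?_ le_rfl)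
        exact abs_add_le _ _
    _ ≤ Zc z + |th H (u * q) r - (H : ℝ) / Nat.totient (u * q)| + z + W := by
        gcongr
    _ = _ := by ring

lemma sum_u {c : ℤ} {z q u u0 v0 B r : ℕ} (hcz : c.natAbs ≤ z) (hu : 1 ≤ u) (hq : 1 ≤ q) (hPP : PP 0 z ∣ q)
    (hqz : ∀ p : ℕ, p.Prime → p ∣ q → p ≤ z) (huu : u ≡ u0 [MOD q]) (hR : Rg 0 z ((u0 : ℤ) * v0 + c))
    (hr : (r : ℤ) ≡ (u : ℤ) * v0 + c [ZMOD ((u * q : ℕ) : ℤ)]) (G : ℕ → ℝ) (hB : 1 ≤ B)
    (hG : ∀ v, |G v| ≤ 1) (hG' : ∀ v, |G (v + 1) - G v| ≤ Real.log B / B) (Em : ℝ)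
    (hEm : ∀ V, V ≤ 4 * B → |th ((u : ℤ) * V + c).toNat (u * q) r -
      (((u : ℤ) * V + c).toNat : ℝ) / Nat.totient (u * q)| ≤ Em) :
    |∑ v ∈ (Icc 1 (4 * B)).filter (fun v => v ≡ v0 [MOD q]), G v * EE z ((u : ℤ) * v + c)| ≤
      (1 + 4 * Real.log B) * (Em + (Zc z + z + (VW 0 z)⁻¹)) + (VW 0 z)⁻¹ * hh z u * (4 * B) / q := by
  have hW : 0 < (VW 0 z)⁻¹ := inv_pos.mpr (VW_pos 0 z)
  set W := (VW 0 z)⁻¹ with hWdef
  have hq0 : (0 : ℝ) < q := by exact_mod_cast hq
  have hB0 : (0 : ℝ) < B := by exact_mod_cast hB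
  have hlog : 0 ≤ Real.log B := Real.log_natCast_nonneg B
  have h1 : ∑ v ∈ (Icc 1 (4 * B)).filter (fun v => v ≡ v0 [MOD q]), G v * EE z ((u : ℤ) * v + c) =
      ∑ v ∈ Icc 1 (4 * B), G v * ((if v ≡ v0 [MOD q] then EE z ((u : ℤ) * v + c) else 0) - W * hh z u / q) +
      ∑ v ∈ Icc 1 (4 * B), G v * (W * hh z u / q) := by
    rw [← Finset.sum_add_distrib, Finset.sum_filter]
    apply Finset.sum_congr rfl
    intro v _
    split_ifs <;> ring
  rw [h1]
  have h2 := abel G (fun v => (if v ≡ v0 [MOD q] then EE z ((u : ℤ) * v + c) else 0) - W * hh z u / q)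
    (4 * B) (Real.log B / B) (Em + (Zc z + z + W)) (by positivity) hG hG'
    (fun V hV => (per_u hcz hu hq hPP hqz huu hR hr).trans (add_le_add (hEm V hV) le_rfl))
  have h3 : (1 + ((4 * B : ℕ) : ℝ) * (Real.log B / B)) = 1 + 4 * Real.log B := by
    push_cast
    field_simp
  rw [h3] at h2
  have hh0 := hh_nonneg z u
  have h4 : |∑ v ∈ Icc 1 (4 * B), G v * (W * hh z u / q)| ≤ W * hh z u * (4 * B) / q := by
    calc |∑ v ∈ Icc 1 (4 * B), G v * (W * hh z u / q)| ≤ ∑ v ∈ Icc 1 (4 * B), |G v * (W * hh z u / q)| :=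
          Finset.abs_sum_le_sum_abs _ _
      _ ≤ ∑ v ∈ Icc 1 (4 * B), W * hh z u / q := by
          apply Finset.sum_le_sum
          intro v _
          have h5 : 0 ≤ W * hh z u / q := by positivity
          rw [abs_mul, abs_of_nonneg h5]
          calc |G v| * (W * hh z u / q) ≤ 1 * (W * hh z u / q) := mul_le_mul_of_nonneg_right (hG v) h5
            _ = _ := one_mul _
      _ = W * hh z u * (4 * B) / q := by
          rw [Finset.sum_const, nsmul_eq_mul, Nat.card_Icc]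
          push_cast
          ring
  calc |∑ v ∈ Icc 1 (4 * B), G v * ((if v ≡ v0 [MOD q] then EE z ((u : ℤ) * v + c) else 0) - W * hh z u / q) +
      ∑ v ∈ Icc 1 (4 * B), G v * (W * hh z u / q)| ≤ _ + _ := abs_add_le _ _
    _ ≤ _ := add_le_add h2 h4

/-! ### The class which is not coprime -/

lemma EE_bad {c : ℤ} {z q u v u0 v0 : ℕ} (_hz : 2 ≤ z) (hcz : c.natAbs ≤ z) (hPP : PP 0 z ∣ q)
    (hR : ¬ Rg 0 z ((u0 : ℤ) * v0 + c)) (hu : u ≡ u0 [MOD q]) (hv : v ≡ v0 [MOD q]) (hu1 : 1 ≤ u) (hv1 : 1 ≤ v) :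
    |EE z ((u : ℤ) * v + c)| ≤ (if u ≤ 2 * z then 1 else 0) * ((if v ≤ 2 * z then 1 else 0) * Real.log z) := by
  have hlz : 0 ≤ Real.log z := Real.log_natCast_nonneg z
  have hRn : ¬ Rg 0 z ((u : ℤ) * v + c) := by rwa [Rg_class hPP hu hv]
  have h0 : 0 ≤ (if u ≤ 2 * z then (1 : ℝ) else 0) * ((if v ≤ 2 * z then 1 else 0) * Real.log z) := by
    split_ifs <;> simp [hlz]
  unfold EE lz
  rw [if_neg hRn, sub_zero]
  unfold N728.QL.lp
  by_cases hp : ((u : ℤ) * v + c).toNat.Prime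
  swap
  · rw [if_neg hp, abs_zero]; exact h0
  rw [if_pos hp]
  have hpos : 0 < (u : ℤ) * v + c := by
    by_contra hcon
    rw [Int.toNat_of_nonpos (by omega)] at hp
    exact Nat.not_prime_zero hp
  have e1 : ((((u : ℤ) * v + c).toNat : ℕ) : ℤ) = (u : ℤ) * v + c := Int.toNat_of_nonneg hpos.le
  unfold Rg at hRn
  push Not at hRn
  obtain ⟨p, hpp, -, hpz, hd⟩ := hRn
  have hd' : p ∣ ((u : ℤ) * v + c).toNat := by
    rw [← Int.natCast_dvd_natCast, e1]; exact hd
  have hpe : p = ((u : ℤ) * v + c).toNat := (Nat.prime_dvd_prime_iff_eq hpp hp).mp hd'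
  have hnz : (u : ℤ) * v + c ≤ z := by rw [← e1, ← hpe]; exact_mod_cast hpz
  have huv : (u : ℤ) * v ≤ 2 * z := by omega
  have huv' : u * v ≤ 2 * z := by exact_mod_cast huv
  have hu2 : u ≤ 2 * z := le_trans (Nat.le_mul_of_pos_right u hv1) huv'
  have hv2 : v ≤ 2 * z := le_trans (Nat.le_mul_of_pos_left v hu1) huv'
  rw [if_pos hu2, if_pos hv2, one_mul, one_mul]
  have h1 : (1 : ℝ) ≤ (((u : ℤ) * v + c : ℤ) : ℝ) := by exact_mod_cast hpos
  have h2 : (((u : ℤ) * v + c : ℤ) : ℝ) ≤ (z : ℝ) := by exact_mod_cast hnz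
  rw [abs_of_nonneg (Real.log_nonneg h1)]
  exact Real.log_le_log (by linarith) h2

lemma ind_sum (S : Finset ℕ) (n : ℕ) (hS : ∀ x ∈ S, 1 ≤ x) :
    ∑ x ∈ S, (if x ≤ n then (1 : ℝ) else 0) ≤ n := by
  rw [← Finset.sum_filter, Finset.sum_const, nsmul_eq_mul, mul_one]
  have h : (S.filter (fun x => x ≤ n)).card ≤ (Icc 1 n).card := by
    apply Finset.card_le_card
    intro x hx
    rw [Finset.mem_filter] at hx
    rw [Finset.mem_Icc]
    exact ⟨hS x hx.1, hx.2⟩
  rw [Nat.card_Icc, Nat.add_sub_cancel] at h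
  exact_mod_cast h

lemma case_bad {c : ℤ} {z q u0 v0 : ℕ} (hz : 2 ≤ z) (hcz : c.natAbs ≤ z) (hPP : PP 0 z ∣ q)
    (hR : ¬ Rg 0 z ((u0 : ℤ) * v0 + c)) (B U1 U2 : ℕ) (G : ℕ → ℝ) (hG : ∀ v, |G v| ≤ 1) :
    |∑ u ∈ (Ioc U1 U2).filter (fun u => u ≡ u0 [MOD q]), ∑ v ∈ (Icc 1 (4 * B)).filter (fun v => v ≡ v0 [MOD q]),
      G v * EE z ((u : ℤ) * v + c)| ≤ (2 * z) * ((2 * z) * Real.log z) := by
  have hlz : 0 ≤ Real.log z := Real.log_natCast_nonneg z
  calc |∑ u ∈ (Ioc U1 U2).filter (fun u => u ≡ u0 [MOD q]),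
        ∑ v ∈ (Icc 1 (4 * B)).filter (fun v => v ≡ v0 [MOD q]), G v * EE z ((u : ℤ) * v + c)|
      ≤ ∑ u ∈ (Ioc U1 U2).filter (fun u => u ≡ u0 [MOD q]),
        ∑ v ∈ (Icc 1 (4 * B)).filter (fun v => v ≡ v0 [MOD q]),
          (if u ≤ 2 * z then (1 : ℝ) else 0) * ((if v ≤ 2 * z then (1 : ℝ) else 0) * Real.log z) := by
        refine (Finset.abs_sum_le_sum_abs _ _).trans (Finset.sum_le_sum ?_)
        intro u hu
        refine (Finset.abs_sum_le_sum_abs _ _).trans (Finset.sum_le_sum ?_)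
        intro v hv
        rw [Finset.mem_filter, Finset.mem_Ioc] at hu
        rw [Finset.mem_filter, Finset.mem_Icc] at hv
        rw [abs_mul]
        calc |G v| * |EE z ((u : ℤ) * v + c)| ≤ 1 * |EE z ((u : ℤ) * v + c)| :=
              mul_le_mul_of_nonneg_right (hG v) (abs_nonneg _)
          _ = |EE z ((u : ℤ) * v + c)| := one_mul _
          _ ≤ _ := EE_bad hz hcz hPP hR hu.2 hv.2 (by omega) hv.1.1
    _ = (∑ u ∈ (Ioc U1 U2).filter (fun u => u ≡ u0 [MOD q]), (if u ≤ 2 * z then (1 : ℝ) else 0)) *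
        ((∑ v ∈ (Icc 1 (4 * B)).filter (fun v => v ≡ v0 [MOD q]), (if v ≤ 2 * z then (1 : ℝ) else 0)) *
          Real.log z) := by
        rw [Finset.sum_mul]
        apply Finset.sum_congr rfl
        intro u _
        rw [Finset.sum_mul, Finset.mul_sum]
    _ ≤ ((2 * z : ℕ) : ℝ) * (((2 * z : ℕ) : ℝ) * Real.log z) := by
        apply mul_le_mul
        · exact ind_sum _ _ (fun x hx => by rw [Finset.mem_filter, Finset.mem_Ioc] at hx; omega)
        · exact mul_le_mul_of_nonneg_right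
            (ind_sum _ _ (fun x hx => by rw [Finset.mem_filter, Finset.mem_Icc] at hx; omega)) hlz
        · exact mul_nonneg (Finset.sum_nonneg (fun v _ => by split_ifs <;> norm_num)) hlz
        · positivity
    _ = _ := by push_cast; ring

/-! ### The coprime class -/

lemma log_small (M ε : ℝ) (hε : 0 < ε) : ∀ᶠ B : ℕ in Filter.atTop, M * Real.log B ≤ ε * B := by
  have h1 : Filter.Tendsto (fun x : ℝ => Real.log x ^ 1 / (1 * x + 0)) Filter.atTop (nhds 0) :=
    Real.tendsto_pow_log_div_mul_add_atTop 1 0 1 one_ne_zero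
  have h2 : Filter.Tendsto (fun B : ℕ => Real.log (B : ℝ) ^ 1 / (1 * (B : ℝ) + 0)) Filter.atTop (nhds 0) :=
    h1.comp tendsto_natCast_atTop_atTop
  have h3 : ∀ᶠ B : ℕ in Filter.atTop, Real.log (B : ℝ) ^ 1 / (1 * (B : ℝ) + 0) < ε / (|M| + 1) :=
    h2.eventually_lt_const (by positivity)
  filter_upwards [h3, Filter.eventually_ge_atTop 1] with B hB hB1
  have hB0 : (0 : ℝ) < B := by exact_mod_cast hB1
  rw [pow_one, one_mul, add_zero, div_lt_div_iff₀ hB0 (by positivity)] at hB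
  have hl : 0 ≤ Real.log B := Real.log_natCast_nonneg B
  have h4 : M * Real.log B ≤ (|M| + 1) * Real.log B :=
    mul_le_mul_of_nonneg_right (by linarith [le_abs_self M]) hl
  linarith

lemma log_large (M : ℝ) : ∀ᶠ B : ℕ in Filter.atTop, M ≤ Real.log B :=
  (Real.tendsto_log_atTop.comp tendsto_natCast_atTop_atTop).eventually_ge_atTop M

/-- the residue -/
lemma exists_res {c : ℤ} (hc : c ≠ 0) {z q u u0 v0 : ℕ} (hcz : c.natAbs ≤ z) (hu : 1 ≤ u) (hq : 1 ≤ q)
    (hPP : PP 0 z ∣ q)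
    (hqz : ∀ p : ℕ, p.Prime → p ∣ q → p ≤ z) (huu : u ≡ u0 [MOD q]) (hR : Rg 0 z ((u0 : ℤ) * v0 + c)) :
    ∃ r : ℕ, (r : ℤ) ≡ (u : ℤ) * v0 + c [ZMOD ((u * q : ℕ) : ℤ)] ∧ Nat.Coprime r (u * q) := by
  have hm : (0 : ℤ) < ((u * q : ℕ) : ℤ) := by exact_mod_cast Nat.mul_pos hu hq
  refine ⟨(((u : ℤ) * v0 + c) % ((u * q : ℕ) : ℤ)).toNat, ?_, ?_⟩
  · rw [Int.toNat_of_nonneg (Int.emod_nonneg _ hm.ne')]
    exact Int.mod_modEq _ _
  · apply Nat.coprime_of_dvd
    intro p hp hpr hpm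
    have h1 : ((((((u : ℤ) * v0 + c) % ((u * q : ℕ) : ℤ)).toNat : ℕ)) : ℤ) =
        ((u : ℤ) * v0 + c) % ((u * q : ℕ) : ℤ) := Int.toNat_of_nonneg (Int.emod_nonneg _ hm.ne')
    have h2 : (p : ℤ) ∣ ((u : ℤ) * v0 + c) % ((u * q : ℕ) : ℤ) := by
      rw [← h1]; exact_mod_cast hpr
    have h3 : (p : ℤ) ∣ ((u * q : ℕ) : ℤ) := by exact_mod_cast hpm
    have h4 : (p : ℤ) ∣ (u : ℤ) * v0 + c := by
      have := Int.emod_add_mul_ediv ((u : ℤ) * v0 + c) ((u * q : ℕ) : ℤ)
      rw [← this]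
      exact dvd_add h2 (Dvd.dvd.mul_right h3 _)
    have hRu : Rg 0 z ((u : ℤ) * v0 + c) := (Rg_class hPP huu rfl).mpr hR
    by_cases hpz : p ≤ z
    · exact hRu p hp hp.pos hpz h4
    · have h5 : p ∣ u := by
        rcases hp.dvd_mul.mp hpm with h | h
        · exact h
        · exact absurd (hqz p hp h) hpz
      have h6 : (p : ℤ) ∣ c := by
        have h7 : (p : ℤ) ∣ (u : ℤ) * v0 := Dvd.dvd.mul_right (Int.natCast_dvd_natCast.mpr h5) _
        have h8 := dvd_sub h4 h7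
        simpa using h8
      have h9 : p ∣ c.natAbs := Int.natCast_dvd.mp h6
      have h10 := Nat.le_of_dvd (Int.natAbs_pos.mpr hc) h9
      omega

lemma hh_one (z : ℕ) : hh z 1 = 0 := by unfold hh; simp

theorem t_B4 (h1 : S_BVH) (h2 : S_HZ) (_h3 : S_MER) : ∀ c : ℤ, c ≠ 0 → S_B4 c := by
  intro c hc
  obtain ⟨K, X0, hBV⟩ := h1 3
  obtain ⟨KH, hKH, hHZ⟩ := h2
  refine ⟨K + 1, 4 * KH, by positivity, ?_⟩
  intro q z ε hq hz hcz hε hPP hqz
  have hW : 0 < (VW 0 z)⁻¹ := inv_pos.mpr (VW_pos 0 z)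
  set W := (VW 0 z)⁻¹ with hWdef
  set C0 : ℝ := Zc z + z + W with hC0
  have hC0p : 0 < C0 := by have := Zc_nonneg z; positivity
  obtain ⟨T0, hT0⟩ := Filter.eventually_atTop.mp (log_small (16 * W * KH) ε hε)
  obtain ⟨B0, hB0⟩ := Filter.eventually_atTop.mp
    (((log_small (20 * C0) ε hε).and ((log_large (q ^ 2 * 3 ^ K)).and
      ((log_large (100 / ε)).and (log_large 1)))))
  obtain ⟨B1, hB1⟩ := exists_nat_gt ((2 * z) * ((2 * z) * Real.log z) / ε)
  refine ⟨max B0 (max X0 (max (T0 ^ 2 + 1) (max (z + 5) B1))), ?_⟩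
  intro B hB T U1 U2 u0 v0 G hBT hTB hU hUT hG hG'
  have hBB0 : B0 ≤ B := (le_max_left _ _).trans hB
  have hBX0 : X0 ≤ B := ((le_max_left _ _).trans (le_max_right _ _)).trans hB
  have hBT0 : T0 ^ 2 + 1 ≤ B :=
    (((le_max_left _ _).trans (le_max_right _ _)).trans (le_max_right _ _)).trans hB
  have hBz : z + 5 ≤ B :=
    ((((le_max_left _ _).trans (le_max_right _ _)).trans (le_max_right _ _)).trans (le_max_right _ _)).trans hB
  have hBB1 : B1 ≤ B :=
    ((((le_max_right _ _).trans (le_max_right _ _)).trans (le_max_right _ _)).trans (le_max_right _ _)).trans hB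
  obtain ⟨b1, b2, b3, b4⟩ := hB0 B hBB0
  have hTpos : 1 ≤ T := by
    rcases Nat.eq_zero_or_pos T with h | h
    · subst h; simp at hBT; omega
    · exact h
  have hTT0 : T0 ≤ T := by
    by_contra hcon
    have : T ^ 2 ≤ T0 ^ 2 := Nat.pow_le_pow_left (by omega) 2
    omega
  have hB0' : (0 : ℝ) < B := by exact_mod_cast (by omega : 0 < B)
  have hB1' : (1 : ℝ) ≤ B := by exact_mod_cast (by omega : 1 ≤ B)
  have hT1' : (1 : ℝ) ≤ T := by exact_mod_cast hTpos
  have hT0' : (0 : ℝ) < T := by linarith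
  have hq0 : (0 : ℝ) < q := by exact_mod_cast hq
  have hz0 : (0 : ℝ) < z := by exact_mod_cast (by omega : 0 < z)
  have hU' : (U1 : ℝ) ≤ U2 := by exact_mod_cast hU
  have hmain0 : 0 ≤ 4 * KH * W / (z * (q : ℝ) ^ 2) * (B * ((U2 : ℝ) - U1)) := by
    have : 0 ≤ (U2 : ℝ) - U1 := by linarith
    positivity
  by_cases hR : Rg 0 z ((u0 : ℤ) * v0 + c)
  swap
  · refine (case_bad hz hcz hPP hR B U1 U2 G hG).trans ?_
    have h4 : (2 * z) * ((2 * z) * Real.log z) ≤ ε * (B * T) := by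
      rw [div_lt_iff₀ hε] at hB1
      have h5 : (B1 : ℝ) ≤ B := by exact_mod_cast hBB1
      calc (2 * z) * ((2 * z) * Real.log z) ≤ B1 * ε := hB1.le
        _ ≤ B * ε := mul_le_mul_of_nonneg_right h5 hε.le
        _ ≤ (B * T) * ε := by
            apply mul_le_mul_of_nonneg_right _ hε.le
            exact le_mul_of_one_le_right hB0'.le hT1'
        _ = ε * (B * T) := by ring
    linarith
  -- the coprime class
  set S := (Ioc U1 U2).filter (fun u => u ≡ u0 [MOD q]) with hS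
  have hSmem : ∀ u ∈ S, 1 ≤ u ∧ u ≤ T ∧ u ≡ u0 [MOD q] := by
    intro u hu
    rw [hS, Finset.mem_filter, Finset.mem_Ioc] at hu
    exact ⟨by omega, by omega, hu.2⟩
  have hres : ∀ u : ℕ, ∃ r : ℕ, u ∈ S → ((r : ℤ) ≡ (u : ℤ) * v0 + c [ZMOD ((u * q : ℕ) : ℤ)] ∧
      Nat.Coprime r (u * q)) := by
    intro u
    by_cases hu : u ∈ S
    · obtain ⟨ha, hb, hd⟩ := hSmem u hu
      obtain ⟨r, hr⟩ := exists_res hc hcz ha hq hPP hqz hd hR
      exact ⟨r, fun _ => hr⟩
    · exact ⟨0, fun h => absurd h hu⟩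
  choose R hRr using hres
  have hmax : ∀ u : ℕ, ∃ V ∈ range (4 * B + 1), ∀ V' ∈ range (4 * B + 1),
      |th ((u : ℤ) * V' + c).toNat (u * q) (R u) - (((u : ℤ) * V' + c).toNat : ℝ) / Nat.totient (u * q)| ≤
      |th ((u : ℤ) * V + c).toNat (u * q) (R u) - (((u : ℤ) * V + c).toNat : ℝ) / Nat.totient (u * q)| := by
    intro u
    exact Finset.exists_max_image (range (4 * B + 1)) (fun V : ℕ =>
      |th ((u : ℤ) * V + c).toNat (u * q) (R u) - (((u : ℤ) * V + c).toNat : ℝ) / Nat.totient (u * q)|)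
      ⟨0, by simp⟩
  choose Vs hVs1 hVs2 using hmax
  classical
  set r' : ℕ → ℕ := fun m => if m / q ∈ S ∧ m / q * q = m then R (m / q) else 1 with hr'
  set h' : ℕ → ℕ := fun m => if m / q ∈ S ∧ m / q * q = m then (((m / q : ℕ) : ℤ) * Vs (m / q) + c).toNat else 0
    with hh'
  set x : ℕ := 4 * B * T + z with hx
  have hxB : B ≤ x := by
    rw [hx]
    have : B * 1 ≤ B * T := Nat.mul_le_mul_left B hTpos
    nlinarith
  have hlogB0 : 0 ≤ Real.log B := by linarith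
  have hTleB : (T : ℝ) ≤ B := by
    refine le_trans ?_ hTB
    exact le_mul_of_one_le_right hT0'.le (one_le_pow₀ b4)
  have hxreal : (x : ℝ) ≤ 5 * (B * T) := by
    rw [hx]
    push_cast
    have h5 : (z : ℝ) ≤ B := by exact_mod_cast (by omega : z ≤ B)
    have h6 : (B : ℝ) ≤ B * T := le_mul_of_one_le_right hB0'.le hT1'
    linarith
  have hx3 : Real.log x ≤ 3 * Real.log B := by
    have h5 : (x : ℝ) ≤ B ^ 3 := by
      have h6 : (5 : ℝ) ≤ B := by exact_mod_cast (by omega : 5 ≤ B)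
      calc (x : ℝ) ≤ 5 * (B * T) := hxreal
        _ ≤ B * (B * B) := by
            apply mul_le_mul h6 _ (by positivity) hB0'.le
            exact mul_le_mul_of_nonneg_left hTleB hB0'.le
        _ = B ^ 3 := by ring
    have h7 : (0 : ℝ) < x := by
      have : (B : ℝ) ≤ x := by exact_mod_cast hxB
      linarith
    calc Real.log x ≤ Real.log ((B : ℝ) ^ 3) := Real.log_le_log h7 h5
      _ = 3 * Real.log B := by rw [Real.log_pow]; norm_num
  have hxlow : Real.log B ≤ Real.log x := Real.log_le_log hB0' (by exact_mod_cast hxB)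
  have hD : ((T * q : ℕ) : ℝ) ^ 2 * Real.log x ^ K ≤ x := by
    have h5 : Real.log x ^ K ≤ (3 * Real.log B) ^ K := pow_le_pow_left₀ (by linarith) hx3 K
    have h6 : (x : ℝ) ≥ B * T := by
      rw [hx]; push_cast
      nlinarith [mul_pos hB0' hT0']
    calc ((T * q : ℕ) : ℝ) ^ 2 * Real.log x ^ K ≤ ((T * q : ℕ) : ℝ) ^ 2 * (3 * Real.log B) ^ K :=
          mul_le_mul_of_nonneg_left h5 (by positivity)
      _ = T * ((T * Real.log B ^ K) * (q ^ 2 * 3 ^ K)) := by push_cast; rw [mul_pow]; ring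
      _ ≤ T * ((T * Real.log B ^ K) * Real.log B) := by
          apply mul_le_mul_of_nonneg_left _ hT0'.le
          apply mul_le_mul_of_nonneg_left b2
          positivity
      _ = T * (T * Real.log B ^ (K + 1)) := by ring
      _ ≤ T * B := mul_le_mul_of_nonneg_left hTB hT0'.le
      _ ≤ x := by rw [mul_comm]; exact h6
  have hBVx := hBV x (hBX0.trans hxB) (T * q) hD r' h' (by
    intro m _
    simp only [hr']
    split_ifs with h
    · have h5 := (hRr (m / q) h.1).2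
      rw [h.2] at h5
      exact h5
    · exact Nat.coprime_one_left m) (by
    intro m
    simp only [hh']
    split_ifs with h
    · have h5 := hVs1 (m / q)
      rw [Finset.mem_range] at h5
      obtain ⟨ha, hb, -⟩ := hSmem _ h.1
      rw [Int.toNat_le, hx]
      have h6 : (Vs (m / q) : ℤ) ≤ 4 * B := by exact_mod_cast (by omega : Vs (m / q) ≤ 4 * B)
      have h7 : ((m / q : ℕ) : ℤ) ≤ T := by exact_mod_cast hb
      have h8 : ((m / q : ℕ) : ℤ) * Vs (m / q) ≤ T * (4 * B) :=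
        mul_le_mul h7 h6 (by positivity) (by positivity)
      push_cast at h8 ⊢
      have h9 : c ≤ z := by omega
      linarith
    · exact Nat.zero_le _)
  -- the sum of the maximal errors
  set Em : ℕ → ℝ := fun u => |th ((u : ℤ) * Vs u + c).toNat (u * q) (R u) -
    (((u : ℤ) * Vs u + c).toNat : ℝ) / Nat.totient (u * q)| with hEm
  have hEsum : ∑ u ∈ S, Em u ≤ x / Real.log x ^ 3 := by
    refine le_trans ?_ hBVx
    have hinj : Set.InjOn (fun u : ℕ => u * q) (S : Set ℕ) := by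
      intro a _ b _ hab
      exact Nat.eq_of_mul_eq_mul_right (by omega) hab
    have hcong : ∑ u ∈ S, Em u = ∑ m ∈ S.image (fun u => u * q),
        |∑ p ∈ (Icc 1 (h' m)).filter (fun p => p.Prime ∧ p ≡ r' m [MOD m]), Real.log p -
          (h' m : ℝ) / Nat.totient m| := by
      rw [Finset.sum_image hinj]
      apply Finset.sum_congr rfl
      intro u hu
      have h5 : u * q / q = u := Nat.mul_div_cancel u (by omega)
      have h6 : r' (u * q) = R u := by
        simp only [hr', h5]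
        rw [if_pos ⟨hu, trivial⟩]
      have h7 : h' (u * q) = ((u : ℤ) * Vs u + c).toNat := by
        simp only [hh', h5]
        rw [if_pos ⟨hu, trivial⟩]
      rw [h6, h7]
      rfl
    rw [hcong]
    apply Finset.sum_le_sum_of_subset_of_nonneg
    · intro m hm
      rw [Finset.mem_image] at hm
      obtain ⟨u, hu, rfl⟩ := hm
      obtain ⟨ha, hb, -⟩ := hSmem u hu
      rw [Finset.mem_Icc]
      exact ⟨Nat.mul_pos ha hq, Nat.mul_le_mul_right q hb⟩
    · intro _ _ _; exact abs_nonneg _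
  -- the sum of `hh`
  have hHsum : ∑ u ∈ S, hh z u ≤ KH * (((U2 : ℝ) - U1) / (z * q) + Real.log T) := by
    have hnn : 0 ≤ KH * (((U2 : ℝ) - U1) / (z * q) + Real.log T) := by
      have h5 : 0 ≤ (U2 : ℝ) - U1 := by linarith
      have h6 : 0 ≤ Real.log T := Real.log_natCast_nonneg T
      positivity
    by_cases hU2 : 2 ≤ U2
    · refine (hHZ z q u0 U1 U2 hz hq hqz hU hU2).trans ?_
      apply mul_le_mul_of_nonneg_left _ hKH.le
      have : Real.log U2 ≤ Real.log T :=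
        Real.log_le_log (by exact_mod_cast (by omega : 0 < U2)) (by exact_mod_cast hUT)
      linarith
    · have h5 : ∑ u ∈ S, hh z u = 0 := by
        apply Finset.sum_eq_zero
        intro u hu
        rw [hS, Finset.mem_filter, Finset.mem_Ioc] at hu
        have : u = 1 := by omega
        rw [this, hh_one]
      rw [h5]; exact hnn
  have hScard : (S.card : ℝ) ≤ T := by
    have h5 : S.card ≤ (Ioc U1 U2).card := Finset.card_filter_le _ _
    rw [Nat.card_Ioc] at h5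
    exact_mod_cast (by omega : S.card ≤ T)
  have htotal : |∑ u ∈ S, ∑ v ∈ (Icc 1 (4 * B)).filter (fun v => v ≡ v0 [MOD q]), G v * EE z ((u : ℤ) * v + c)| ≤
      (1 + 4 * Real.log B) * (∑ u ∈ S, Em u) + (1 + 4 * Real.log B) * C0 * S.card +
        W * (4 * B) / q * ∑ u ∈ S, hh z u := by
    calc |∑ u ∈ S, ∑ v ∈ (Icc 1 (4 * B)).filter (fun v => v ≡ v0 [MOD q]), G v * EE z ((u : ℤ) * v + c)|
        ≤ ∑ u ∈ S, |∑ v ∈ (Icc 1 (4 * B)).filter (fun v => v ≡ v0 [MOD q]), G v * EE z ((u : ℤ) * v + c)| :=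
          Finset.abs_sum_le_sum_abs _ _
      _ ≤ ∑ u ∈ S, ((1 + 4 * Real.log B) * (Em u + C0) + W * hh z u * (4 * B) / q) := by
          apply Finset.sum_le_sum
          intro u hu
          obtain ⟨ha, hb, hd⟩ := hSmem u hu
          exact sum_u hcz ha hq hPP hqz hd hR (hRr u hu).1 G (by omega) hG hG' (Em u)
            (fun V hV => hVs2 u V (Finset.mem_range.mpr (by omega)))
      _ = _ := by
          rw [Finset.sum_add_distrib, ← Finset.mul_sum, Finset.sum_add_distrib, Finset.sum_const, nsmul_eq_mul,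
            Finset.mul_sum (s := S) (f := fun u => hh z u)]
          have : ∀ u ∈ S, W * hh z u * (4 * B) / q = W * (4 * B) / q * hh z u := fun u _ => by ring
          rw [Finset.sum_congr rfl this]
          ring
  -- the error terms
  have hL : 0 < Real.log B := by linarith
  have t1 : (1 + 4 * Real.log B) * (∑ u ∈ S, Em u) ≤ ε / 4 * (B * T) := by
    have h5 : ∑ u ∈ S, Em u ≤ 5 * (B * T) / Real.log B ^ 3 := by
      refine hEsum.trans ?_
      apply div_le_div₀ (by positivity) hxreal (by positivity)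
      exact pow_le_pow_left₀ hlogB0 hxlow 3
    have h6 : (1 + 4 * Real.log B) * (∑ u ∈ S, Em u) ≤ (5 * Real.log B) * (5 * (B * T) / Real.log B ^ 3) := by
      apply mul_le_mul (by linarith) h5 (Finset.sum_nonneg (fun u _ => abs_nonneg _)) (by positivity)
    have h7 : (5 * Real.log B) * (5 * (B * T) / Real.log B ^ 3) = 25 * (B * T) / Real.log B ^ 2 := by
      field_simp
      ring
    rw [h7] at h6
    refine h6.trans ?_
    rw [div_le_iff₀ (by positivity)]
    have h8 : 100 ≤ ε * Real.log B ^ 2 := by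
      have h9 : 100 ≤ Real.log B * ε := by
        rwa [div_le_iff₀ hε] at b3
      calc (100 : ℝ) ≤ Real.log B * ε := h9
        _ ≤ Real.log B * ε * Real.log B := le_mul_of_one_le_right (by positivity) b4
        _ = ε * Real.log B ^ 2 := by ring
    have h10 : 0 < (B : ℝ) * T := mul_pos hB0' hT0'
    calc 25 * ((B : ℝ) * T) = 100 * (B * T) / 4 := by ring
      _ ≤ (ε * Real.log B ^ 2) * (B * T) / 4 := by
          have := mul_le_mul_of_nonneg_right h8 h10.le
          linarith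
      _ = ε / 4 * (B * T) * Real.log B ^ 2 := by ring
  have t2 : (1 + 4 * Real.log B) * C0 * S.card ≤ ε / 4 * (B * T) := by
    calc (1 + 4 * Real.log B) * C0 * S.card ≤ (5 * Real.log B) * C0 * T := by
          apply mul_le_mul _ hScard (by positivity) (by positivity)
          exact mul_le_mul_of_nonneg_right (by linarith) hC0p.le
      _ = (20 * C0 * Real.log B) / 4 * T := by ring
      _ ≤ (ε * B) / 4 * T := by
          apply mul_le_mul_of_nonneg_right _ hT0'.le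
          linarith
      _ = ε / 4 * (B * T) := by ring
  have t3 : W * (4 * B) / q * ∑ u ∈ S, hh z u ≤
      4 * KH * W / (z * (q : ℝ) ^ 2) * (B * ((U2 : ℝ) - U1)) + ε / 4 * (B * T) := by
    have h5 : 0 ≤ W * (4 * B) / q := by positivity
    have h6 := hT0 T hTT0
    calc W * (4 * B) / q * ∑ u ∈ S, hh z u
        ≤ W * (4 * B) / q * (KH * (((U2 : ℝ) - U1) / (z * q) + Real.log T)) :=
          mul_le_mul_of_nonneg_left hHsum h5
      _ = 4 * KH * W / (z * (q : ℝ) ^ 2) * (B * ((U2 : ℝ) - U1)) + (16 * W * KH * Real.log T) / q * (B / 4) := by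
          field_simp
          ring
      _ ≤ 4 * KH * W / (z * (q : ℝ) ^ 2) * (B * ((U2 : ℝ) - U1)) + (ε * T) * (B / 4) := by
          have h7 : (16 * W * KH * Real.log T) / q ≤ 16 * W * KH * Real.log T := by
            apply div_le_self _ (by exact_mod_cast hq)
            have := Real.log_natCast_nonneg T
            positivity
          have h8 : (16 * W * KH * Real.log T) / q * (B / 4) ≤ (ε * T) * (B / 4) :=
            mul_le_mul_of_nonneg_right (h7.trans h6) (by positivity)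
          linarith
      _ = _ := by ring
  refine htotal.trans ?_
  have h10 : 0 < (B : ℝ) * T := mul_pos hB0' hT0'
  have h11 : 0 < ε * ((B : ℝ) * T) := mul_pos hε h10
  linarith

end

end Pool.Agent.N49.QL
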